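import Pool.Agent.H58BE.Conv

/-!
# Graded Betti numbers of binomial edge ideals and of their initial ideals: a characterisation

For every field `K`, every `n` and every graph `G` on the vertices `0, …, n - 1` (an arbitrary
labelled graph), the binomial edge ideal `J_G` and its lexicographic initial ideal have the same
graded Betti numbers IF AND ONLY IF the labelling is closed. Already the equality of the single Betti
number `β_{1,3}` forces the labelling to be closed.

Definitions used (all from the library, `Pool/Agent/TH47/BE`):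
* `xv i`, `yv i` are the variables `x_i`, `y_i`; the index type `Fin n ⊕ₗ Fin n` of the variables is
  ordered `x_1, …, x_n, y_1, …, y_n`;
* `IsClosedLabelling G` says that the labelling of `G` is closed;
* `JG K G` is the ideal generated by the `x_i y_j - x_j y_i`, `i < j` adjacent, and `inIdeal K I` the
  ideal generated by the leading monomials of the nonzero `g ∈ I` for the lexicographic order;
  `I0 K G` is the ideal generated by the `x_i y_j`, `i < j` adjacent;
* `betti I i j` is the dimension of the Koszul homology `H_i(x, y; S/I)` in internal degree `j`,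
  that is `dim_K Tor_i^S(S/I, K)_j = β_{ij}(S/I)`.
-/

set_option autoImplicit false

universe u

namespace Pool.Agent.Results.MP_74c6a9_al.ClosedIffBettiEqual

open Finset MvPolynomial Pool.Agent.TH47.BE Pool.Agent.H58BE

variable {n : ℕ} {K : Type u} [Field K] {G : SimpleGraph (Fin n)}

theorem betti_JG (G : SimpleGraph (Fin n)) : betti (JG K G) 1 3 = 0 := by
  unfold JG
  apply betti_one_three
  rintro g ⟨i, j, _, _, rfl⟩
  exact ((isHomogeneous_X K _).mul (isHomogeneous_X K _)).sub
    ((isHomogeneous_X K _).mul (isHomogeneous_X K _))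

/-- two different exponents of one class -/
theorem exists_swap {u u' : (Fin n ⊕ₗ Fin n) →₀ ℕ} (he : Eqv G u u') (hne : u' ≠ u) :
    ∃ a b : Fin n, a ≠ b ∧ (hg G (cdeg u)).Reachable a b ∧ u (yv a) < u' (yv a) ∧
      u' (yv b) < u (yv b) := by
  classical
  obtain ⟨h1, h2⟩ := he
  obtain ⟨c, hc⟩ : ∃ c, u (yv c) ≠ u' (yv c) := by
    by_contra hcon
    push Not at hcon
    exact hne (ext_of h1 hcon).symm
  have hs := h2 ((hg G (cdeg u)).connectedComponentMk c)
  have hcm : c ∈ univ.filter (fun i => (hg G (cdeg u)).connectedComponentMk i =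
      (hg G (cdeg u)).connectedComponentMk c) := by simp
  rcases lt_or_gt_of_ne hc with h | h
  · obtain ⟨b, hb, hlt⟩ : ∃ b ∈ univ.filter (fun i => (hg G (cdeg u)).connectedComponentMk i =
        (hg G (cdeg u)).connectedComponentMk c), u' (yv b) < u (yv b) := by
      by_contra hcon
      push Not at hcon
      have := Finset.sum_lt_sum hcon ⟨c, hcm, h⟩
      exact this.ne (by convert hs)
    refine ⟨c, b, ?_, ?_, h, hlt⟩
    · rintro rfl
      omega
    · simp only [Finset.mem_filter, Finset.mem_univ, true_and] at hb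
      exact (SimpleGraph.ConnectedComponent.exact hb).symm
  · obtain ⟨a, ha, hlt⟩ : ∃ a ∈ univ.filter (fun i => (hg G (cdeg u)).connectedComponentMk i =
        (hg G (cdeg u)).connectedComponentMk c), u (yv a) < u' (yv a) := by
      by_contra hcon
      push Not at hcon
      have := Finset.sum_lt_sum hcon ⟨c, hcm, h⟩
      exact this.ne (by convert hs.symm)
    refine ⟨a, c, ?_, ?_, hlt, h⟩
    · rintro rfl
      omega
    · simp only [Finset.mem_filter, Finset.mem_univ, true_and] at ha
      exact SimpleGraph.ConnectedComponent.exact ha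

/-- a leading exponent of degree at most two below a squarefree exponent comes from an edge -/
theorem lead_small {g : MvPolynomial (Fin n ⊕ₗ Fin n) K} (hgJ : g ∈ JG K G) (hg0 : g ≠ 0)
    {m0 : (Fin n ⊕ₗ Fin n) →₀ ℕ} (hm0 : ∀ c, cdeg m0 c ≤ 1)
    (hle : MonomialOrder.lex.degree g ≤ m0)
    (hdeg : (MonomialOrder.lex.degree g).degree ≤ 2) :
    ∃ a b : Fin n, a < b ∧ G.Adj a b ∧ m0 (xv a) ≠ 0 ∧ m0 (yv b) ≠ 0 := by
  classical
  have hc : coeff (MonomialOrder.lex.degree g) g ≠ 0 :=
    MonomialOrder.leadingCoeff_ne_zero_iff (m := MonomialOrder.lex) |>.mpr hg0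
  obtain ⟨u', h1, h2, h3⟩ := exists_eqv hgJ hc
  have h5 := MonomialOrder.le_degree (m := MonomialOrder.lex) (mem_support_iff.mpr h1)
  rw [MonomialOrder.lex_le_iff] at h5
  generalize MonomialOrder.lex.degree g = s at *
  obtain ⟨a, b, hab, hreach, ha, hb⟩ := exists_swap h2 h3
  have e1 := h2.1 a
  have e2 := h2.1 b
  have l1 := hle (xv a)
  have l2 := hle (yv a)
  have l3 := hle (xv b)
  have l4 := hle (yv b)
  have m1 := hm0 a
  have m2 := hm0 b
  unfold cdeg at e1 e2 m1 m2
  have sxa : s (xv a) = 1 := by omega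
  have sya : s (yv a) = 0 := by omega
  have sxb : s (xv b) = 0 := by omega
  have syb : s (yv b) = 1 := by omega
  have uxb : u' (xv b) = 1 := by omega
  have hpair : Finsupp.single (xv a) 1 + Finsupp.single (yv b) 1 ≤ s :=
    pair_le.2 ⟨by omega, by omega⟩
  obtain ⟨t, ht⟩ := exists_add_of_le hpair
  have ht0 : t = 0 := by
    have h6 := congrArg Finsupp.degree ht
    rw [map_add, map_add, Finsupp.degree_single, Finsupp.degree_single] at h6
    rw [← Finsupp.degree_eq_zero_iff]
    omega
  rw [ht0, add_zero] at ht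
  have hcd : ∀ c, cdeg s c = (if a = c then 1 else 0) + (if b = c then 1 else 0) := by
    intro c
    have := cdeg_pair (0 : (Fin n ⊕ₗ Fin n) →₀ ℕ) a b c
    rw [zero_add, ← ht] at this
    rw [this]
    simp [cdeg]
  have hadj : G.Adj a b := by
    obtain ⟨p⟩ := hreach
    cases p with
    | nil => exact absurd rfl hab
    | cons h p =>
      rename_i c
      have h6 := h.2.2
      rw [hcd c] at h6
      by_cases hac : a = c
      · subst hac
        exact absurd h.1 (G.loopless.irrefl _)
      · by_cases hbc : b = c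
        · subst hbc
          exact h.1
        · rw [if_neg hac, if_neg hbc] at h6
          exact absurd rfl h6
  refine ⟨a, b, ?_, hadj, by omega, by omega⟩
  by_contra hnot
  have hba : b < a := lt_of_le_of_ne (not_lt.1 hnot) hab.symm
  have hlt : toLex s < toLex u' := by
    rw [Finsupp.Lex.lt_iff]
    refine ⟨xv b, ?_, ?_⟩
    · intro v hv
      rcases var_cases v with ⟨k, rfl⟩ | ⟨k, rfl⟩
      · rw [xv_lt] at hv
        have h6 := hcd k
        rw [if_neg (hv.trans hba).ne', if_neg hv.ne'] at h6
        have h7 := h2.1 k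
        rw [h6] at h7
        unfold cdeg at h6 h7
        simp only [ofLex_toLex]
        omega
      · exact absurd hv (not_lt.mpr (xv_lt_yv b k).le)
    · simp only [ofLex_toLex]
      omega
  exact absurd h5 (not_le.2 hlt)

theorem lex_pair (t : (Fin n ⊕ₗ Fin n) →₀ ℕ) {j k : Fin n} (hjk : j < k) :
    toLex (t + (Finsupp.single (xv k) 1 + Finsupp.single (yv j) 1)) <
      toLex (t + (Finsupp.single (xv j) 1 + Finsupp.single (yv k) 1)) := by
  rw [Finsupp.Lex.lt_iff]
  refine ⟨xv j, ?_, ?_⟩
  · intro v hv
    rcases var_cases v with ⟨i, rfl⟩ | ⟨i, rfl⟩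
    · rw [xv_lt] at hv
      simp only [ofLex_toLex]
      rw [xv_pair, xv_pair, if_neg (hv.trans hjk).ne', if_neg hv.ne']
    · exact absurd hv (not_lt.mpr (xv_lt_yv j i).le)
  · simp only [ofLex_toLex]
    rw [xv_pair, xv_pair, if_neg hjk.ne', if_pos rfl]
    omega

theorem mem_in {I : Ideal (MvPolynomial (Fin n ⊕ₗ Fin n) K)} {a b : (Fin n ⊕ₗ Fin n) →₀ ℕ}
    (hlt : toLex b < toLex a) (hmem : monomial a (1 : K) - monomial b (1 : K) ∈ I) :
    monomial a (1 : K) ∈ inIdeal K I := by
  classical
  have hne : b ≠ a := fun h => absurd hlt (by rw [h]; exact lt_irrefl _)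
  have hca : coeff a (monomial a (1 : K) - monomial b (1 : K)) = 1 := by
    rw [coeff_sub, coeff_monomial, coeff_monomial, if_pos rfl, if_neg hne, sub_zero]
  have hg0 : monomial a (1 : K) - monomial b (1 : K) ≠ 0 := by
    intro h
    rw [h, coeff_zero] at hca
    exact zero_ne_one hca
  apply Ideal.subset_span
  refine ⟨_, hmem, hg0, ?_⟩
  have hdeg : MonomialOrder.lex.degree (monomial a (1 : K) - monomial b (1 : K)) = a := by
    have h1 : a ∈ (monomial a (1 : K) - monomial b (1 : K)).support := by
      rw [mem_support_iff, hca]; exact one_ne_zero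
    have h2 := MonomialOrder.le_degree (m := MonomialOrder.lex) h1
    have h3 : MonomialOrder.lex.degree (monomial a (1 : K) - monomial b (1 : K)) ∈
        (monomial a (1 : K) - monomial b (1 : K)).support :=
      MonomialOrder.degree_mem_support hg0
    rw [mem_support_iff, coeff_sub, coeff_monomial, coeff_monomial] at h3
    by_cases h4 : a = MonomialOrder.lex.degree (monomial a (1 : K) - monomial b (1 : K))
    · exact h4.symm
    · by_cases h5 : b = MonomialOrder.lex.degree (monomial a (1 : K) - monomial b (1 : K))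
      · rw [← h5, MonomialOrder.lex_le_iff] at h2
        exact absurd h2 (not_le.mpr hlt)
      · rw [if_neg h4, if_neg h5, sub_zero] at h3
        exact absurd rfl h3
  rw [hdeg]

/-- the criterion: `m0 = x_v + x_j + y_k` -/
theorem closed_of
    (H : ∀ (v : Fin n ⊕ₗ Fin n) (j k : Fin n), j < k →
      (∀ c, cdeg (Finsupp.single v 1 + (Finsupp.single (xv j) 1 + Finsupp.single (yv k) 1)) c ≤ 1) →
      monomial (Finsupp.single v 1 + (Finsupp.single (xv j) 1 + Finsupp.single (yv k) 1)) (1 : K) ∈
        inIdeal K (JG K G) →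
      ∃ a b : Fin n, a < b ∧ G.Adj a b ∧
        (Finsupp.single v 1 + (Finsupp.single (xv j) 1 + Finsupp.single (yv k) 1) :
          (Fin n ⊕ₗ Fin n) →₀ ℕ) (xv a) ≠ 0 ∧
        (Finsupp.single v 1 + (Finsupp.single (xv j) 1 + Finsupp.single (yv k) 1) :
          (Fin n ⊕ₗ Fin n) →₀ ℕ) (yv b) ≠ 0) : IsClosedLabelling G := by
  classical
  have up : ∀ i j k : Fin n, i < j → j < k → G.Adj i j → G.Adj i k → G.Adj j k := by
    intro i j k hij hjk h1 h2
    have hik := hij.trans hjk
    have hmem : monomial (Finsupp.single (yv i) 1 +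
        (Finsupp.single (xv j) 1 + Finsupp.single (yv k) 1)) (1 : K) - monomial
        (Finsupp.single (yv i) 1 + (Finsupp.single (xv k) 1 + Finsupp.single (yv j) 1)) (1 : K) ∈
        JG K G := by
      have h3 := Ideal.sub_mem _ (binom_mem (K := K) (Finsupp.single (yv j) 1) hik h2)
        (binom_mem (K := K) (Finsupp.single (yv k) 1) hij h1)
      convert h3 using 1
      have e1 : (Finsupp.single (yv k) 1 + (Finsupp.single (xv i) 1 + Finsupp.single (yv j) 1) :
          (Fin n ⊕ₗ Fin n) →₀ ℕ) = Finsupp.single (yv j) 1 +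
          (Finsupp.single (xv i) 1 + Finsupp.single (yv k) 1) := by abel
      have e2 : (Finsupp.single (yv k) 1 + (Finsupp.single (xv j) 1 + Finsupp.single (yv i) 1) :
          (Fin n ⊕ₗ Fin n) →₀ ℕ) = Finsupp.single (yv i) 1 +
          (Finsupp.single (xv j) 1 + Finsupp.single (yv k) 1) := by abel
      have e3 : (Finsupp.single (yv j) 1 + (Finsupp.single (xv k) 1 + Finsupp.single (yv i) 1) :
          (Fin n ⊕ₗ Fin n) →₀ ℕ) = Finsupp.single (yv i) 1 +
          (Finsupp.single (xv k) 1 + Finsupp.single (yv j) 1) := by abel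
      rw [e1, e2, e3]
      ring
    obtain ⟨a, b, hab, hadj, ha, hb⟩ := H (yv i) j k hjk (by
      intro c
      rw [cdeg_pair]
      unfold cdeg
      rw [Finsupp.single_apply, Finsupp.single_apply, if_neg (xv_ne_yv c i).symm]
      simp only [yv_inj]
      split_ifs <;> omega) (mem_in (lex_pair _ hjk) hmem)
    rw [xv_pair, Finsupp.single_apply, if_neg (xv_ne_yv a i).symm] at ha
    rw [yv_pair, Finsupp.single_apply] at hb
    simp only [yv_inj] at hb
    have hja : j = a := by
      by_contra h
      rw [if_neg h] at ha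
      exact ha rfl
    by_cases hkb : k = b
    · rw [hja, hkb]
      exact hadj
    · by_cases hib : i = b
      · omega
      · rw [if_neg hib, if_neg hkb] at hb
        exact absurd rfl hb
  have down : ∀ i j k : Fin n, i < j → j < k → G.Adj i k → G.Adj j k → G.Adj i j := by
    intro i j k hij hjk h1 h2
    have hik := hij.trans hjk
    have hmem : monomial (Finsupp.single (xv k) 1 +
        (Finsupp.single (xv i) 1 + Finsupp.single (yv j) 1)) (1 : K) - monomial
        (Finsupp.single (xv k) 1 + (Finsupp.single (xv j) 1 + Finsupp.single (yv i) 1)) (1 : K) ∈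
        JG K G := by
      have h3 := Ideal.sub_mem _ (binom_mem (K := K) (Finsupp.single (xv j) 1) hik h1)
        (binom_mem (K := K) (Finsupp.single (xv i) 1) hjk h2)
      convert h3 using 1
      have e1 : (Finsupp.single (xv i) 1 + (Finsupp.single (xv j) 1 + Finsupp.single (yv k) 1) :
          (Fin n ⊕ₗ Fin n) →₀ ℕ) = Finsupp.single (xv j) 1 +
          (Finsupp.single (xv i) 1 + Finsupp.single (yv k) 1) := by abel
      have e2 : (Finsupp.single (xv i) 1 + (Finsupp.single (xv k) 1 + Finsupp.single (yv j) 1) :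
          (Fin n ⊕ₗ Fin n) →₀ ℕ) = Finsupp.single (xv k) 1 +
          (Finsupp.single (xv i) 1 + Finsupp.single (yv j) 1) := by abel
      have e3 : (Finsupp.single (xv j) 1 + (Finsupp.single (xv k) 1 + Finsupp.single (yv i) 1) :
          (Fin n ⊕ₗ Fin n) →₀ ℕ) = Finsupp.single (xv k) 1 +
          (Finsupp.single (xv j) 1 + Finsupp.single (yv i) 1) := by abel
      rw [e1, e2, e3]
      ring
    obtain ⟨a, b, hab, hadj, ha, hb⟩ := H (xv k) i j hij (by
      intro c
      rw [cdeg_pair]
      unfold cdeg
      rw [Finsupp.single_apply, Finsupp.single_apply, if_neg (xv_ne_yv k c)]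
      simp only [xv_inj]
      split_ifs <;> omega) (mem_in (lex_pair _ hij) hmem)
    rw [xv_pair, Finsupp.single_apply] at ha
    simp only [xv_inj] at ha
    rw [yv_pair, Finsupp.single_apply, if_neg (xv_ne_yv k b)] at hb
    have hjb : j = b := by
      by_contra h
      rw [if_neg h] at hb
      exact hb rfl
    by_cases hia : i = a
    · rw [hia, hjb]
      exact hadj
    · by_cases hka : k = a
      · omega
      · rw [if_neg hka, if_neg hia] at ha
        exact absurd rfl ha
  constructor
  · intro i j k hij hik hjk h1 h2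
    rcases lt_or_gt_of_ne hjk with h | h
    · exact up i j k hij h h1 h2
    · exact (up i k j hik h h2 h1).symm
  · intro i j k hik hjk hij h1 h2
    rcases lt_or_gt_of_ne hij with h | h
    · exact down i j k h hjk h1 h2
    · exact (down j i k h hik h2 h1).symm

theorem closed_of_betti (h : betti (inIdeal K (JG K G)) 1 3 = 0) : IsClosedLabelling G := by
  classical
  apply closed_of (K := K)
  intro v j k hjk hc hm
  set m0 : (Fin n ⊕ₗ Fin n) →₀ ℕ :=
    Finsupp.single v 1 + (Finsupp.single (xv j) 1 + Finsupp.single (yv k) 1) with hm0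
  have hm1 : m0 = (Finsupp.single (xv j) 1 + Finsupp.single (yv k) 1) + Finsupp.single v 1 := by
    rw [hm0, add_comm]
  have hgood := good_of_betti (inIdeal K (JG K G)) h v
    (Finsupp.single (xv j) 1 + Finsupp.single (yv k) 1) (by
      rw [map_add, Finsupp.degree_single, Finsupp.degree_single]) (by rw [← hm1]; exact hm)
  rw [← hm1] at hgood
  obtain ⟨p, hp1, hp2, hp3⟩ := hgood
  have h1 := congrArg (coeff m0) hp3
  rw [coeff_monomial, if_pos rfl, coeff_sum] at h1
  obtain ⟨w, _, hw⟩ := Finset.exists_ne_zero_of_sum_ne_zero (by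
    rw [← h1]; exact one_ne_zero)
  rw [coeff_X_mul'] at hw
  split_ifs at hw with hws
  · have h2 := hp1 w
    have h3 : inIdeal K (JG K G) = Ideal.span ((fun s => monomial s (1 : K)) ''
        {s | ∃ g ∈ JG K G, g ≠ 0 ∧ s = MonomialOrder.lex.degree g}) := by
      unfold inIdeal
      congr 1
      ext f
      constructor
      · rintro ⟨g, h4, h5, rfl⟩
        exact ⟨_, ⟨g, h4, h5, rfl⟩, rfl⟩
      · rintro ⟨s, ⟨g, h4, h5, rfl⟩, rfl⟩
        exact ⟨g, h4, h5, rfl⟩
    rw [h3, mem_ideal_span_monomial_image] at h2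
    obtain ⟨s, ⟨g, hgJ, hg0, rfl⟩, hle⟩ := h2 _ (mem_support_iff.2 hw)
    refine lead_small hgJ hg0 hc (hle.trans tsub_le_self) ?_
    rw [← hp2 w _ hw]
    exact Finsupp.degree_mono hle
  · exact absurd rfl hw

theorem closed_of_I0 (h : inIdeal K (JG K G) = I0 K G) : IsClosedLabelling G := by
  classical
  apply closed_of (K := K)
  intro v j k _ _ hm
  rw [h, mem_I0] at hm
  exact hm _ (by rw [coeff_monomial, if_pos rfl]; exact one_ne_zero)

/-- **Full answer to Q1, with its converse.** For every field `K` and every graph `G` on `n` labelled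
vertices the following are equivalent:
(1) the labelling of `G` is closed;
(2) `β_{ij}(S/J_G) = β_{ij}(S/in_<(J_G))` for all `i`, `j`;
(3) `β_{1,3}(S/J_G) = β_{1,3}(S/in_<(J_G))`;
(4) `β_{1,3}(S/in_<(J_G)) = 0`;
(5) `in_<(J_G)` is generated by the `x_i y_j`, `i < j` adjacent.
Moreover `β_{1,3}(S/J_G) = 0` for all `G`. -/
theorem result (K : Type u) [Field K] (n : ℕ) (G : SimpleGraph (Fin n)) :
    List.TFAE [IsClosedLabelling G,
      ∀ i j : ℕ, betti (JG K G) i j = betti (inIdeal K (JG K G)) i j,
      betti (JG K G) 1 3 = betti (inIdeal K (JG K G)) 1 3,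
      betti (inIdeal K (JG K G)) 1 3 = 0,
      inIdeal K (JG K G) = I0 K G] ∧
    betti (JG K G) 1 3 = 0 := by
  refine ⟨?_, betti_JG G⟩
  tfae_have 1 → 2 := fun h i j => betti_eq h i j
  tfae_have 2 → 3 := fun h => h 1 3
  tfae_have 3 → 4 := fun h => by rw [← h]; exact betti_JG G
  tfae_have 4 → 1 := closed_of_betti
  tfae_have 1 → 5 := inIdeal_JG
  tfae_have 5 → 1 := closed_of_I0
  tfae_finish

end Pool.Agent.Results.MP_74c6a9_al.ClosedIffBettiEqual
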